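import Mathlib

/-!
The pointwise inequality.
-/

open ComplexConjugate

namespace Pool.Agent.TH337.SE

/-- the margin -/
noncomputable def marg (k u v : ℂ) : ℝ :=
  2 * (conj k * u + k * v).re - ‖u - v‖ ^ 2 - ‖k‖ ^ 2

lemma marg_eq (k u v : ℂ) : 4 * u.re * v.re = ‖u + conj v - k‖ ^ 2 + marg k u v := by
  unfold marg
  rw [← Complex.normSq_eq_norm_sq, ← Complex.normSq_eq_norm_sq, ← Complex.normSq_eq_norm_sq]
  simp only [Complex.normSq_apply, Complex.add_re, Complex.add_im, Complex.sub_re, Complex.sub_im,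
    Complex.conj_re, Complex.conj_im, Complex.mul_re, Complex.mul_im]
  ring

lemma re_pos {k u v : ℂ} (hk : 0 < k.re) (hm : 0 < marg k u v) : 0 < u.re ∧ 0 < v.re := by
  have h1 := marg_eq k u v
  have h2 : (u.re + v.re - k.re) ^ 2 ≤ ‖u + conj v - k‖ ^ 2 := by
    have h3 := Complex.abs_re_le_norm (u + conj v - k)
    have h4 : (u + conj v - k).re = u.re + v.re - k.re := by simp
    rw [← sq_abs (u.re + v.re - k.re), ← h4]
    exact pow_le_pow_left₀ (abs_nonneg _) h3 2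
  have h5 : 0 < u.re * v.re := by nlinarith [sq_nonneg ‖u + conj v - k‖]
  rcases pos_and_pos_or_neg_and_neg_of_mul_pos h5 with h | h
  · exact h
  · exfalso
    nlinarith [sq_nonneg (u.re - v.re), mul_pos (neg_pos.mpr h.1) hk, mul_pos (neg_pos.mpr h.2) hk,
      mul_pos hk hk]

lemma ptwise {k u v x y : ℂ} {e0 M c : ℝ} (hk : 0 < k.re) (he : 0 < e0) (hm : e0 ≤ marg k u v)
    (hM : 0 < M) (hu : ‖u‖ ≤ M) (hv : ‖v‖ ≤ M) (hc : c = e0 / (8 * M)) :
    c * (‖x‖ ^ 2 + ‖y‖ ^ 2) ≤ (conj (u * x + v * y) * (x + y)).re - (conj (k * x) * y).re := by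
  obtain ⟨hU, hV⟩ := re_pos hk (he.trans_le hm)
  have h1 := marg_eq k u v
  set W := ‖u + conj v - k‖ with hW
  have hW0 : 0 ≤ W := norm_nonneg _
  have hUM : u.re ≤ M := (Complex.re_le_norm u).trans hu
  have hVM : v.re ≤ M := (Complex.re_le_norm v).trans hv
  have hc0 : 0 < c := by rw [hc]; positivity
  have hcM : 8 * M * c = e0 := by rw [hc]; field_simp
  have hid : (conj (u * x + v * y) * (x + y)).re - (conj (k * x) * y).re
      = u.re * ‖x‖ ^ 2 + v.re * ‖y‖ ^ 2 + (conj (u + conj v - k) * (conj x * y)).re := by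
    rw [← Complex.normSq_eq_norm_sq, ← Complex.normSq_eq_norm_sq]
    simp only [Complex.normSq_apply, Complex.add_re, Complex.add_im, Complex.sub_re,
      Complex.sub_im, Complex.conj_re, Complex.conj_im, Complex.mul_re, Complex.mul_im]
    ring
  have hlow : -(W * (‖x‖ * ‖y‖)) ≤ (conj (u + conj v - k) * (conj x * y)).re := by
    have h2 := Complex.abs_re_le_norm (conj (u + conj v - k) * (conj x * y))
    rw [norm_mul, norm_mul, RCLike.norm_conj, RCLike.norm_conj, ← hW] at h2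
    exact (abs_le.mp h2).1
  rw [hid]
  set A := ‖x‖
  set B := ‖y‖
  have hA : 0 ≤ A := norm_nonneg _
  have hB : 0 ≤ B := norm_nonneg _
  have hUc : 0 < u.re - c := by
    have h3 : e0 ≤ 4 * u.re * v.re := by nlinarith [sq_nonneg W]
    have h4 : 8 * M * c ≤ 4 * u.re * M := by
      rw [hcM]
      nlinarith
    nlinarith
  have h5 : W ^ 2 ≤ 4 * ((u.re - c) * (v.re - c)) := by
    have h6 : c * (u.re + v.re) ≤ c * (2 * M) := by nlinarith
    nlinarith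
  have h7 : 0 ≤ (u.re - c) * ((u.re - c) * A ^ 2 + (v.re - c) * B ^ 2 - W * (A * B)) := by
    nlinarith [sq_nonneg ((u.re - c) * A - W / 2 * B), mul_nonneg (sub_nonneg.mpr h5) (sq_nonneg B)]
  have h8 : 0 ≤ (u.re - c) * A ^ 2 + (v.re - c) * B ^ 2 - W * (A * B) :=
    nonneg_of_mul_nonneg_right h7 hUc
  nlinarith

/-- the multiplier -/
noncomputable def Psi (δ c d : ℂ) : ℂ :=
  ((2 * ‖δ‖ ^ 2 / (‖δ * c + conj δ * d‖ ^ 2 + ‖δ‖ ^ 2 * ‖c - d‖ ^ 2) : ℝ) : ℂ)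
    * conj (δ * c + conj δ * d)

lemma m_sub (δ c d : ℂ) : ‖δ * c + conj δ * d‖ ^ 2 - ‖δ‖ ^ 2 * ‖c - d‖ ^ 2
    = 4 * (δ.re * (δ * c * conj d).re) := by
  rw [← Complex.normSq_eq_norm_sq, ← Complex.normSq_eq_norm_sq, ← Complex.normSq_eq_norm_sq]
  simp only [Complex.normSq_apply, Complex.add_re, Complex.add_im, Complex.sub_re,
      Complex.sub_im, Complex.conj_re, Complex.conj_im, Complex.mul_re, Complex.mul_im]
  ring

lemma marg_Psi {δ c d : ℂ} (hδ : 0 < δ.re) (hρ : 0 < (δ * c * conj d).re) :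
    marg (conj δ) (Psi δ c d * c) (Psi δ c d * d)
      ≥ 3 * ‖δ‖ ^ 2 * (δ.re * (δ * c * conj d).re) / ‖δ * c + conj δ * d‖ ^ 2 := by
  have hms := m_sub δ c d
  set m := δ * c + conj δ * d with hm
  set ρ := δ.re * (δ * c * conj d).re with hρ'
  have hρ0 : 0 < ρ := mul_pos hδ hρ
  set D := ‖δ‖ ^ 2 with hD
  set q := D * ‖c - d‖ ^ 2 with hq
  have hD0 : 0 < D := by
    have : 0 < ‖δ‖ := hδ.trans_le (Complex.re_le_norm δ)
    positivity
  have hq0 : 0 ≤ q := by positivity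
  have hm2 : 0 < ‖m‖ ^ 2 := by nlinarith
  set τ := 2 * D / (‖m‖ ^ 2 + q) with hτ
  have hS : 0 < ‖m‖ ^ 2 + q := by positivity
  have hPsi : Psi δ c d = (τ : ℂ) * conj m := rfl
  have e1 : (conj (conj δ) * (Psi δ c d * c) + conj δ * (Psi δ c d * d)) = ((τ * ‖m‖ ^ 2 : ℝ) : ℂ) := by
    rw [hPsi, Complex.conj_conj]
    have : δ * ((τ : ℂ) * conj m * c) + conj δ * ((τ : ℂ) * conj m * d)
        = (τ : ℂ) * (m * conj m) := by rw [hm]; ring
    rw [this, Complex.mul_conj, Complex.normSq_eq_norm_sq]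
    push_cast
    ring
  have e2 : ‖Psi δ c d * c - Psi δ c d * d‖ ^ 2 = τ ^ 2 * ‖m‖ ^ 2 * ‖c - d‖ ^ 2 := by
    rw [← mul_sub, norm_mul, hPsi, norm_mul, RCLike.norm_conj, Complex.norm_real, mul_pow, mul_pow,
      Real.norm_eq_abs, sq_abs]
  unfold marg
  rw [e1, e2, RCLike.norm_conj, ← hD, Complex.ofReal_re]
  have e3 : 2 * (τ * ‖m‖ ^ 2) - τ ^ 2 * ‖m‖ ^ 2 * ‖c - d‖ ^ 2 - D
      = D * (‖m‖ ^ 2 - q) * (3 * ‖m‖ ^ 2 + q) / (‖m‖ ^ 2 + q) ^ 2 := by
    have e4 : ‖c - d‖ ^ 2 = q / D := by rw [hq]; field_simp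
    rw [e4, hτ]
    field_simp
    ring
  rw [e3, hms, ge_iff_le, div_le_div_iff₀ hm2 (by positivity)]
  have h9 : (‖m‖ ^ 2 + q) ^ 2 ≤ (2 * ‖m‖ ^ 2) ^ 2 :=
    pow_le_pow_left₀ hS.le (by linarith) 2
  have h10 : 0 ≤ D * ρ := by positivity
  nlinarith [mul_nonneg h10 (sub_nonneg.mpr h9), mul_nonneg (mul_nonneg h10 hq0) hm2.le]

end Pool.Agent.TH337.SE
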