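import Mathlib

/-!
`Q M_κ P` is compact for continuous `κ`.
-/

open MeasureTheory Filter Topology
open scoped ENNReal

namespace Pool.Agent.TH337.SE

abbrev X : Type := AddCircle (1 : ℝ)
noncomputable abbrev hx : Measure X := AddCircle.haarAddCircle (T := (1 : ℝ))
abbrev H : Type := Lp ℂ 2 hx
noncomputable abbrev e (n : ℤ) : H := fourierLp (T := (1 : ℝ)) 2 n

/-- multiplication by continuous functions -/
noncomputable def Mc : C(X, ℂ) →L[ℂ] (H →L[ℂ] H) :=
  ((ContinuousLinearMap.mul ℂ ℂ).holderL hx ∞ 2 2).comp (ContinuousMap.toLp ∞ hx ℂ)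

lemma Mc_coe (k : C(X, ℂ)) (f : H) : (Mc k f : X → ℂ) =ᵐ[hx] fun x => k x * f x := by
  have h1 := (ContinuousLinearMap.mul ℂ ℂ).coeFn_holder (r := 2) (ContinuousMap.toLp ∞ hx ℂ k) f
  have h2 := ContinuousMap.coeFn_toLp (p := ∞) (𝕜 := ℂ) hx k
  filter_upwards [h1, h2] with x hx1 hx2
  have h3 : (Mc k f : X → ℂ) x = _ := hx1
  rw [h3, hx2]
  rfl

lemma Mc_e (k n : ℤ) : Mc (fourier k) (e n) = e (k + n) := by
  refine Lp.ext ?_
  filter_upwards [Mc_coe (fourier k) (e n), coeFn_fourierLp (T := (1 : ℝ)) 2 n,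
    coeFn_fourierLp (T := (1 : ℝ)) 2 (k + n)] with x h1 h2 h3
  rw [h1, h2, h3, fourier_add]

lemma dense_e : Dense (Submodule.span ℂ (Set.range e) : Set H) := by
  have h := span_fourierLp_closure_eq_top (T := (1 : ℝ)) (p := 2) (by simp)
  exact Submodule.dense_iff_topologicalClosure_eq_top.mpr h

lemma ext_e {A B : H →L[ℂ] H} (h : ∀ n, A (e n) = B (e n)) : A = B := by
  refine ContinuousLinearMap.ext_on dense_e ?_
  rintro _ ⟨n, rfl⟩
  exact h n

lemma compact_rank_one (x y : H) :
    IsCompactOperator ((ContinuousLinearMap.toSpanSingleton ℂ x).comp (innerSL ℂ y)) := by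
  have h1 : IsCompactOperator (ContinuousLinearMap.toSpanSingleton ℂ x : ℂ →L[ℂ] H) :=
    (isCompactOperator_id_iff_locallyCompactSpace.mpr
      (inferInstance : LocallyCompactSpace ℂ)).clm_comp _
  exact h1.comp_clm (innerSL ℂ y)

lemma compact_sum (F : Finset ℤ) (g : ℤ → H) :
    IsCompactOperator ((∑ n ∈ F, (ContinuousLinearMap.toSpanSingleton ℂ (g n)).comp
      (innerSL ℂ (e n)) : H →L[ℂ] H) : H → H) := by
  induction F using Finset.cons_induction with
  | empty => simp only [Finset.sum_empty]; exact isCompactOperator_zero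
  | cons a s ha ih =>
    rw [Finset.sum_cons]
    exact (compact_rank_one _ _).add ih

lemma compact_of_finite {A : H →L[ℂ] H} (F : Finset ℤ) (hA : ∀ n, n ∉ F → A (e n) = 0) :
    IsCompactOperator A := by
  have h1 : A = ∑ n ∈ F, (ContinuousLinearMap.toSpanSingleton ℂ (A (e n))).comp
      (innerSL ℂ (e n)) := by
    refine ext_e fun m => ?_
    have ho := orthonormal_iff_ite.mp (orthonormal_fourier (T := (1 : ℝ)))
    simp only [ContinuousLinearMap.sum_apply, ContinuousLinearMap.comp_apply, innerSL_apply_apply,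
      ContinuousLinearMap.toSpanSingleton_apply]
    have h2 : ∀ n, inner ℂ (e n) (e m) = if n = m then (1 : ℂ) else 0 := fun n => ho n m
    simp only [h2, ite_smul, one_smul, zero_smul]
    rw [Finset.sum_ite_eq']
    split_ifs with hm
    · rfl
    · exact hA m hm
  rw [h1]
  exact compact_sum F _

/-- the two projections -/
noncomputable def PP (S : H →L[ℂ] H) : H →L[ℂ] H := (1 / 2 : ℂ) • (1 + S)
noncomputable def QQ (S : H →L[ℂ] H) : H →L[ℂ] H := (1 / 2 : ℂ) • (1 - S)

variable {S : H →L[ℂ] H} (hS : ∀ n : ℤ, S (e n) = (if 0 ≤ n then (1 : ℂ) else -1) • e n)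

include hS in
lemma PP_e (n : ℤ) : PP S (e n) = if 0 ≤ n then e n else 0 := by
  simp only [PP, ContinuousLinearMap.smul_apply, ContinuousLinearMap.add_apply,
    ContinuousLinearMap.one_apply, hS]
  split_ifs
  · rw [one_smul, ← two_smul ℂ, smul_smul]; norm_num
  · simp

include hS in
lemma QQ_e (n : ℤ) : QQ S (e n) = if 0 ≤ n then 0 else e n := by
  simp only [QQ, ContinuousLinearMap.smul_apply, ContinuousLinearMap.sub_apply,
    ContinuousLinearMap.one_apply, hS]
  split_ifs
  · simp
  · rw [neg_smul, one_smul, sub_neg_eq_add, ← two_smul ℂ, smul_smul]; norm_num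

/-- the Hankel operator as a function of its symbol -/
noncomputable def Hk (S : H →L[ℂ] H) : C(X, ℂ) →L[ℂ] (H →L[ℂ] H) :=
  (ContinuousLinearMap.compL ℂ H H H (QQ S)).comp
    (((ContinuousLinearMap.compL ℂ H H H).flip (PP S)).comp Mc)

lemma Hk_apply (k : C(X, ℂ)) (f : H) : Hk S k f = QQ S (Mc k (PP S f)) := rfl

include hS in
lemma Hk_fourier_compact (k : ℤ) : IsCompactOperator (Hk S (fourier k)) := by
  refine compact_of_finite (Finset.Ico 0 (-k)) fun n hn => ?_
  rw [Hk_apply, PP_e hS]
  split_ifs with h0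
  · rw [Mc_e, QQ_e hS]
    rw [Finset.mem_Ico, not_and, not_lt] at hn
    rw [if_pos (by linarith [hn h0])]
  · simp

include hS in
lemma Hk_compact (k : C(X, ℂ)) : IsCompactOperator (Hk S k) := by
  have h1 : (Submodule.span ℂ (Set.range (@fourier (1 : ℝ)))) ≤
      ((compactOperator (RingHom.id ℂ) H H).comap (Hk S).toLinearMap) := by
    rw [Submodule.span_le]
    rintro _ ⟨n, rfl⟩
    exact Hk_fourier_compact hS n
  have hcl : IsClosed {k : C(X, ℂ) | IsCompactOperator (Hk S k)} :=
    isClosed_setOf_isCompactOperator.preimage (Hk S).continuous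
  have h2 : k ∈ closure ((Submodule.span ℂ (Set.range (@fourier (1 : ℝ))) : Set C(X, ℂ))) := by
    have h3 := span_fourier_closure_eq_top (T := (1 : ℝ))
    rw [← Submodule.topologicalClosure_coe, h3]
    trivial
  exact closure_minimal (fun x hx => h1 hx) hcl h2


include hS in
lemma S_symm (x y : H) : inner ℂ (S x) y = inner ℂ x (S y) := by
  have ho := orthonormal_iff_ite.mp (orthonormal_fourier (T := (1 : ℝ)))
  have ho' : ∀ n m, inner ℂ (e n) (e m) = if n = m then (1 : ℂ) else 0 := fun n m => ho n m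
  have h1 : ∀ m x, inner ℂ (e m) (S x) = inner ℂ (S (e m)) x := by
    intro m
    have h2 : (innerSL ℂ (e m)).comp S = innerSL ℂ (S (e m)) := by
      refine ContinuousLinearMap.ext_on dense_e ?_
      rintro _ ⟨n, rfl⟩
      simp only [ContinuousLinearMap.comp_apply, innerSL_apply_apply]
      rw [hS, hS, inner_smul_left, inner_smul_right, ho']
      by_cases hnm : m = n
      · subst hnm; split_ifs <;> simp
      · simp [hnm]
    intro x
    have := congrArg (fun f => f x) h2
    simpa using this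
  have h3 : innerSL ℂ (S x) = (innerSL ℂ x).comp S := by
    refine ContinuousLinearMap.ext_on dense_e ?_
    rintro _ ⟨m, rfl⟩
    simp only [ContinuousLinearMap.comp_apply, innerSL_apply_apply]
    rw [← inner_conj_symm, h1, inner_conj_symm]
  have := congrArg (fun f => f y) h3
  simpa using this

lemma conj_half : (starRingEnd ℂ) (1 / 2 : ℂ) = 1 / 2 := by
  rw [show (1 / 2 : ℂ) = ((1 / 2 : ℝ) : ℂ) by push_cast; rfl]
  exact Complex.conj_ofReal _

include hS in
lemma PP_symm (x y : H) : inner ℂ (PP S x) y = inner ℂ x (PP S y) := by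
  simp only [PP, ContinuousLinearMap.smul_apply, ContinuousLinearMap.add_apply,
    ContinuousLinearMap.one_apply, inner_smul_left, inner_smul_right, inner_add_left,
    inner_add_right, S_symm hS, conj_half]

include hS in
lemma QQ_symm (x y : H) : inner ℂ (QQ S x) y = inner ℂ x (QQ S y) := by
  simp only [QQ, ContinuousLinearMap.smul_apply, ContinuousLinearMap.sub_apply,
    ContinuousLinearMap.one_apply, inner_smul_left, inner_smul_right, inner_sub_left,
    inner_sub_right, S_symm hS, conj_half]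

/-- the other Hankel operator -/
noncomputable def Hk' (S : H →L[ℂ] H) : C(X, ℂ) →L[ℂ] (H →L[ℂ] H) :=
  (ContinuousLinearMap.compL ℂ H H H (PP S)).comp
    (((ContinuousLinearMap.compL ℂ H H H).flip (QQ S)).comp Mc)

lemma Hk'_apply (k : C(X, ℂ)) (f : H) : Hk' S k f = PP S (Mc k (QQ S f)) := rfl

include hS in
lemma Hk'_fourier_compact (k : ℤ) : IsCompactOperator (Hk' S (fourier k)) := by
  refine compact_of_finite (Finset.Ico (-k) 0) fun n hn => ?_
  rw [Hk'_apply, QQ_e hS]
  split_ifs with h0
  · simp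
  · rw [Mc_e, PP_e hS]
    rw [Finset.mem_Ico, not_and_or, not_lt, not_le] at hn
    rw [if_neg]
    rcases hn with hn | hn
    · linarith
    · exact absurd hn h0

include hS in
lemma Hk'_compact (k : C(X, ℂ)) : IsCompactOperator (Hk' S k) := by
  have h1 : (Submodule.span ℂ (Set.range (@fourier (1 : ℝ)))) ≤
      ((compactOperator (RingHom.id ℂ) H H).comap (Hk' S).toLinearMap) := by
    rw [Submodule.span_le]
    rintro _ ⟨n, rfl⟩
    exact Hk'_fourier_compact hS n
  have hcl : IsClosed {k : C(X, ℂ) | IsCompactOperator (Hk' S k)} :=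
    isClosed_setOf_isCompactOperator.preimage (Hk' S).continuous
  have h2 : k ∈ closure ((Submodule.span ℂ (Set.range (@fourier (1 : ℝ))) : Set C(X, ℂ))) := by
    have h3 := span_fourier_closure_eq_top (T := (1 : ℝ))
    rw [← Submodule.topologicalClosure_coe, h3]
    trivial
  exact closure_minimal (fun x hx => h1 hx) hcl h2

lemma Mc_adj (k : C(X, ℂ)) (x y : H) : inner ℂ (Mc k x) y = inner ℂ x (Mc (star k) y) := by
  rw [L2.inner_def, L2.inner_def]
  refine integral_congr_ae ?_
  filter_upwards [Mc_coe k x, Mc_coe (star k) y] with s h1 h2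
  rw [h1, h2]
  simp only [RCLike.inner_apply, map_mul, ContinuousMap.star_apply, RCLike.star_def]
  ring

include hS in
lemma Hk_adj (k : C(X, ℂ)) (x y : H) :
    inner ℂ (Hk S k x) y = inner ℂ x (Hk' S (star k) y) := by
  rw [Hk_apply, Hk'_apply, QQ_symm hS, Mc_adj, PP_symm hS]

end Pool.Agent.TH337.SE
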