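import Pool.Agent.TH337.SE.Main

/-!
Condition (3) implies `Θ`-strong ellipticity: assembly.
-/

open MeasureTheory Filter Topology ComplexConjugate
open scoped ENNReal

namespace Pool.Agent.TH337.SE

lemma Hk_adjoint {S : H →L[ℂ] H}
    (hS : ∀ n : ℤ, S (e n) = (if 0 ≤ n then (1 : ℂ) else -1) • e n) (κ : C(X, ℂ)) :
    ContinuousLinearMap.adjoint (Hk S κ) = Hk' S (star κ) := by
  symm
  rw [ContinuousLinearMap.eq_adjoint_iff]
  intro x y
  rw [← inner_conj_symm, ← Hk_adj hS, inner_conj_symm]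

lemma decomp {A T K₀ : H →L[ℂ] H} (hA : A = T - K₀) (hK : IsCompactOperator K₀)
    (hK' : IsCompactOperator (ContinuousLinearMap.adjoint K₀)) {c : ℝ} (hc : 0 < c)
    (hpos : ∀ f, c * ‖f‖ ^ 2 ≤ (inner ℂ (A f) f).re) :
    ∃ D K : H →L[ℂ] H, IsSelfAdjoint D ∧ IsCompactOperator K ∧
      (∃ c : ℝ, 0 < c ∧ ∀ x : H, c * ‖x‖ ^ 2 ≤ (inner ℂ (D x) x).re) ∧
      (1 / 2 : ℂ) • (T + ContinuousLinearMap.adjoint T) = D + K := by
  refine ⟨(1 / 2 : ℂ) • (A + ContinuousLinearMap.adjoint A),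
    (1 / 2 : ℂ) • (K₀ + ContinuousLinearMap.adjoint K₀), ?_, ?_, ⟨c, hc, fun x => ?_⟩, ?_⟩
  · rw [IsSelfAdjoint, star_smul, star_add, ContinuousLinearMap.star_eq_adjoint,
      ContinuousLinearMap.star_eq_adjoint, ContinuousLinearMap.adjoint_adjoint, add_comm A]
    congr 1
    exact conj_half
  · exact (hK.add hK').smul (1 / 2 : ℂ)
  · refine (hpos x).trans_eq ?_
    rw [ContinuousLinearMap.smul_apply, ContinuousLinearMap.add_apply, inner_smul_left,
      inner_add_left, ContinuousLinearMap.adjoint_inner_left, conj_half]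
    have h1 : inner ℂ x (A x) = conj (inner ℂ (A x) x) := (inner_conj_symm _ _).symm
    rw [h1, Complex.add_conj, show (1 / 2 : ℂ) * ((2 * (inner ℂ (A x) x).re : ℝ) : ℂ)
      = (((inner ℂ (A x) x).re : ℝ) : ℂ) by push_cast; ring, Complex.ofReal_re]
  · rw [hA, map_sub, ← smul_add]
    congr 1
    abel

theorem strong {a b : X → ℂ} (ha : PC a) (hb : PC b) (h3 : Cond3 a b) :
    ∃ Θ : X → ℂ, (∀ t, Θ t ≠ 0) ∧
      (∀ x : ℝ, (∃ l : ℂ, l ≠ 0 ∧ Tendsto (fun s : ℝ => Θ (↑s : X)) (𝓝[<] x) (𝓝 l)) ∧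
        (∃ r : ℂ, r ≠ 0 ∧ Tendsto (fun s : ℝ => Θ (↑s : X)) (𝓝[>] x) (𝓝 r))) ∧
      ∀ (S T : H →L[ℂ] H),
        (∀ n : ℤ, S (e n) = (if 0 ≤ n then (1 : ℂ) else -1) • e n) →
        (∀ f : H, (T f : X → ℂ) =ᵐ[hx] fun x => Θ x * (a x * f x + b x * (S f : X → ℂ) x)) →
        ∃ D K : H →L[ℂ] H, IsSelfAdjoint D ∧ IsCompactOperator K ∧
          (∃ c : ℝ, 0 < c ∧ ∀ x : H, c * ‖x‖ ^ 2 ≤ (inner ℂ (D x) x).re) ∧
          (1 / 2 : ℂ) • (T + ContinuousLinearMap.adjoint T) = D + K := by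
  obtain ⟨δ, hδ⟩ := sel ha hb h3
  obtain ⟨C, hC⟩ := good_uniform ha hb hδ
  have hre : ∀ y, 0 < (δ y).re := fun y => (hδ y).1
  refine ⟨Th a b δ, Th_ne hre, fun x => ?_, ?_⟩
  · obtain ⟨⟨al, hal⟩, ar, har⟩ := ha x
    obtain ⟨⟨bl, hbl⟩, br, hbr⟩ := hb x
    refine ⟨Th_tendsto (hδ _) (nhdsWithin_mono _ fun s hs => ?_) hal hbl,
      Th_tendsto (hδ _) (nhdsWithin_mono _ fun s hs => ?_) har hbr⟩
    · exact ne_of_lt hs
    · exact ne_of_gt hs
  · intro S T hS hT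
    -- constants
    obtain ⟨z₀, -, hz₀⟩ := (isCompact_univ (X := X)).exists_isMinOn Set.univ_nonempty
      (Complex.continuous_re.comp δ.continuous).continuousOn
    set r := (δ z₀).re with hr
    have hr0 : 0 < r := hre z₀
    have hrle : ∀ z, r ≤ (δ z).re := fun z => hz₀ (Set.mem_univ z)
    set Δ := ‖δ‖ with hΔ
    have hΔle : ∀ z, ‖δ z‖ ≤ Δ := fun z => δ.norm_coe_le_norm z
    have hΔ0 : 0 < Δ := (hre z₀).trans_le ((Complex.re_le_norm _).trans (hΔle z₀))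
    set B : ℝ := 2 * C + 1 with hB
    have hB0 : 0 < B := by positivity
    set η : ℝ := 1 / ((C : ℝ) + 1) with hη
    have hη0 : 0 < η := by positivity
    set e0 := 3 * r ^ 2 * (r * η) / (2 * Δ * B) ^ 2 with he0
    have he00 : 0 < e0 := by positivity
    set M := 2 * Δ ^ 2 / (4 * (r * η)) * (2 * Δ * B) * B with hM
    have hM0 : 0 < M := by positivity
    have hgood : ∀ᵐ z ∂hx, e0 ≤ marg ((star δ) z) (Th a b δ z * (a z + b z))
        (Th a b δ z * (a z - b z)) ∧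
        ‖Th a b δ z * (a z + b z)‖ ≤ M ∧ ‖Th a b δ z * (a z - b z)‖ ≤ M := by
      filter_upwards [ae_good hC] with z hz
      obtain ⟨g1, g2, g3⟩ := hz
      have hif : 0 < (δ z * (a z + b z) * conj (a z - b z)).re := hη0.trans_le g3
      have hTh : Th a b δ z = Psi (δ z) (a z + b z) (a z - b z) := by
        unfold Th; rw [if_pos hif]
      have hc : ‖a z + b z‖ ≤ B := by
        have := norm_add_le (a z) (b z); rw [hB]; linarith
      have hd : ‖a z - b z‖ ≤ B := by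
        have := norm_sub_le (a z) (b z); rw [hB]; linarith
      rw [hTh]
      exact bounds hr0 hB0 hη0 (hrle z) (hΔle z) hc hd g3
    have hκ : ∀ z, 0 < ((star δ) z).re := fun z => by
      rw [ContinuousMap.star_apply]
      simpa using hre z
    have hmain := main_ineq hS hT he00 hM0 hκ hgood
    refine decomp rfl (Hk_compact hS (star δ)) ?_ (c := e0 / (8 * M) / 2) (by positivity) hmain
    rw [Hk_adjoint hS]
    exact Hk'_compact hS _

/-- weak form of `Re T = D + K` -/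
lemma weak_form {T D K : H →L[ℂ] H}
    (h : (1 / 2 : ℂ) • (T + ContinuousLinearMap.adjoint T) = D + K) (f g : H) :
    (inner ℂ (T f) g + conj (inner ℂ (T g) f)) / 2 = inner ℂ (D f) g + inner ℂ (K f) g := by
  have h1 : inner ℂ (((1 / 2 : ℂ) • (T + ContinuousLinearMap.adjoint T)) f) g
      = inner ℂ ((D + K) f) g := by rw [h]
  rw [ContinuousLinearMap.smul_apply, ContinuousLinearMap.add_apply,
    ContinuousLinearMap.add_apply, inner_smul_left, inner_add_left, inner_add_left,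
    ContinuousLinearMap.adjoint_inner_left, conj_half] at h1
  rw [← h1, inner_conj_symm]
  ring

end Pool.Agent.TH337.SE
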