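import Mathlib

/-!
Selection of the continuous function `δ`.
-/

open Filter Topology ComplexConjugate

namespace Pool.Agent.TH337.SE

/-- one-sided limits exist everywhere -/
def PC (a : AddCircle (1 : ℝ) → ℂ) : Prop :=
  ∀ x : ℝ, (∃ l : ℂ, Tendsto (fun s : ℝ => a (↑s : AddCircle (1:ℝ))) (𝓝[<] x) (𝓝 l)) ∧
      (∃ r : ℂ, Tendsto (fun s : ℝ => a (↑s : AddCircle (1:ℝ))) (𝓝[>] x) (𝓝 r))

lemma ev_circle {P : AddCircle (1 : ℝ) → Prop} {s₀ : ℝ}
    (h1 : ∀ᶠ s : ℝ in 𝓝[<] s₀, P (↑s : AddCircle (1 : ℝ)))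
    (h2 : ∀ᶠ s : ℝ in 𝓝[>] s₀, P (↑s : AddCircle (1 : ℝ))) :
    ∀ᶠ z in 𝓝[≠] (↑s₀ : AddCircle (1 : ℝ)), P z := by
  have h3 : ∀ᶠ s : ℝ in 𝓝[≠] s₀, P (↑s : AddCircle (1 : ℝ)) := by
    rw [← nhdsLT_sup_nhdsGT]
    exact eventually_sup.mpr ⟨h1, h2⟩
  rw [eventually_nhdsWithin_iff] at h3 ⊢
  have hopen : IsOpenMap (fun s : ℝ => (↑s : AddCircle (1 : ℝ))) := QuotientAddGroup.isOpenMap_coe
  have h4 := hopen.image_mem_nhds h3
  filter_upwards [h4]
  rintro z ⟨s, hs, rfl⟩ hz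
  apply hs
  intro h
  apply hz
  rw [Set.mem_singleton_iff] at h ⊢
  rw [h]

lemma tendsto_punct (s₀ : ℝ) :
    Tendsto (fun s : ℝ => (↑s : AddCircle (1 : ℝ))) (𝓝[≠] s₀) (𝓝[≠] (↑s₀ : AddCircle (1 : ℝ))) := by
  refine tendsto_nhdsWithin_iff.mpr ⟨?_, ?_⟩
  · have hc : Continuous (fun s : ℝ => (↑s : AddCircle (1 : ℝ))) := AddCircle.continuous_mk' 1
    exact (hc.tendsto s₀).mono_left nhdsWithin_le_nhds
  · have h1 : ∀ᶠ s : ℝ in 𝓝 s₀, |s - s₀| < 1 := by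
      have : Metric.ball s₀ 1 ∈ 𝓝 s₀ := Metric.ball_mem_nhds s₀ one_pos
      filter_upwards [this] with s hs
      rwa [Metric.mem_ball, Real.dist_eq] at hs
    filter_upwards [self_mem_nhdsWithin, nhdsWithin_le_nhds h1] with s hs hs1
    intro h
    apply hs
    rw [Set.mem_singleton_iff] at h ⊢
    have h2 : ((s - s₀ : ℝ) : AddCircle (1 : ℝ)) = 0 := by
      rw [AddCircle.coe_sub, h, sub_self]
    obtain ⟨n, hn⟩ := (AddCircle.coe_eq_zero_iff (1 : ℝ)).mp h2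
    rw [← hn] at hs1
    have h3 : |(n : ℝ)| < 1 := by simpa using hs1
    have h4 : n = 0 := by
      have : |n| < 1 := by exact_mod_cast h3
      exact Int.abs_lt_one_iff.mp this
    rw [h4] at hn
    simp at hn
    linarith

lemma sel_point {c1 d1 c2 d2 : ℂ} (h : ∀ μ ν : ℝ, 0 ≤ μ → μ ≤ 1 → 0 ≤ ν → ν ≤ 1 →
    (c1 * d2 * (μ : ℂ) + c2 * d1 * (1 - (μ : ℂ))) * (ν : ℂ) + d1 * d2 * (1 - (ν : ℂ)) ≠ 0) :
    ∃ δ : ℂ, 0 < δ.re ∧ 0 < (δ * c1 * conj d1).re ∧ 0 < (δ * c2 * conj d2).re := by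
  have hdd : d1 * d2 ≠ 0 := by
    have := h 0 0 le_rfl zero_le_one le_rfl zero_le_one
    simpa using this
  have hd1 : d1 ≠ 0 := left_ne_zero_of_mul hdd
  have hd2 : d2 ≠ 0 := right_ne_zero_of_mul hdd
  set T : Set ℂ := convexHull ℝ {1, c1 / d1, c2 / d2} with hT
  have h0 : (0 : ℂ) ∉ T := by
    intro h0
    rw [hT, convexHull_insert (Set.insert_nonempty _ _), convexHull_pair] at h0
    rw [mem_convexJoin] at h0
    obtain ⟨o, ho, z, hz, h0⟩ := h0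
    rw [Set.mem_singleton_iff] at ho
    subst ho
    obtain ⟨p, q, hp, hq, hpq, hz⟩ := hz
    obtain ⟨p', q', hp', hq', hpq', h0⟩ := h0
    refine h p q' hp (by linarith) hq' (by linarith) ?_
    have e1 : (1 : ℂ) - (p : ℂ) = q := by
      have : q = 1 - p := by linarith
      rw [this]; push_cast; ring
    have e2 : (1 : ℂ) - (q' : ℂ) = p' := by
      have : p' = 1 - q' := by linarith
      rw [this]; push_cast; ring
    rw [e1, e2]
    rw [← hz] at h0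
    simp only [Complex.real_smul] at h0
    have h5 : (c1 * d2 * (p : ℂ) + c2 * d1 * (q : ℂ)) * (q' : ℂ) + d1 * d2 * (p' : ℂ)
        = d1 * d2 * ((p' : ℂ) * 1 + (q' : ℂ) * ((p : ℂ) * (c1 / d1) + (q : ℂ) * (c2 / d2))) := by
      field_simp
      ring
    rw [h5, h0, mul_zero]
  have hcl : IsClosed T := (Set.toFinite ({1, c1 / d1, c2 / d2} : Set ℂ)).isClosed_convexHull ℝ
  obtain ⟨f, u, hf0, hf⟩ := geometric_hahn_banach_point_closed (convex_convexHull ℝ _) hcl h0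
  rw [map_zero] at hf0
  set δ : ℂ := ⟨f 1, -(f Complex.I)⟩ with hδ
  have hre : ∀ z : ℂ, (δ * z).re = f z := by
    intro z
    have h6 : f z = z.re * f 1 + z.im * f Complex.I := by
      conv_lhs => rw [show z = z.re • (1 : ℂ) + z.im • Complex.I by
        simp only [Complex.real_smul, mul_one]; exact (Complex.re_add_im z).symm]
      rw [map_add, map_smul, map_smul, smul_eq_mul, smul_eq_mul]
    rw [h6, Complex.mul_re]
    simp only [hδ]
    ring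
  have hsub := subset_convexHull ℝ ({1, c1 / d1, c2 / d2} : Set ℂ)
  have p1 : 0 < (δ * 1).re := by
    rw [hre]; exact hf0.trans (hf 1 (hsub (by simp)))
  have p2 : 0 < (δ * (c1 / d1)).re := by
    rw [hre]; exact hf0.trans (hf _ (hsub (by simp)))
  have p3 : 0 < (δ * (c2 / d2)).re := by
    rw [hre]; exact hf0.trans (hf _ (hsub (by simp)))
  have key : ∀ {c d : ℂ}, d ≠ 0 → 0 < (δ * (c / d)).re → 0 < (δ * c * conj d).re := by
    intro c d hd hp
    have e : δ * c * conj d = ((‖d‖ ^ 2 : ℝ) : ℂ) * (δ * (c / d)) := by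
      rw [← Complex.normSq_eq_norm_sq, ← Complex.mul_conj]
      field_simp
    rw [e, Complex.re_ofReal_mul]
    have : 0 < ‖d‖ := norm_pos_iff.mpr hd
    positivity
  exact ⟨δ, by simpa using p1, key hd1 p2, key hd2 p3⟩

/-- condition (3) -/
def Cond3 (a b : AddCircle (1 : ℝ) → ℂ) : Prop :=
  ∀ x : ℝ, ∀ ap am bp bm : ℂ,
    Tendsto (fun s : ℝ => a (↑s : AddCircle (1:ℝ))) (𝓝[>] x) (𝓝 ap) →
    Tendsto (fun s : ℝ => a (↑s : AddCircle (1:ℝ))) (𝓝[<] x) (𝓝 am) →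
    Tendsto (fun s : ℝ => b (↑s : AddCircle (1:ℝ))) (𝓝[>] x) (𝓝 bp) →
    Tendsto (fun s : ℝ => b (↑s : AddCircle (1:ℝ))) (𝓝[<] x) (𝓝 bm) →
    ∀ μ ν : ℝ, 0 ≤ μ → μ ≤ 1 → 0 ≤ ν → ν ≤ 1 →
      ((ap + bp) * (am - bm) * (μ : ℂ) + (am + bm) * (ap - bp) * (1 - (μ : ℂ))) * (ν : ℂ)
        + (ap - bp) * (am - bm) * (1 - (ν : ℂ)) ≠ 0

variable {a b : AddCircle (1 : ℝ) → ℂ}

/-- admissible values -/
def adm (a b : AddCircle (1 : ℝ) → ℂ) (y : AddCircle (1 : ℝ)) : Set ℂ :=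
  {δ | 0 < δ.re ∧ ∃ η : ℝ, 0 < η ∧ ∀ᶠ z in 𝓝[≠] y, η < (δ * (a z + b z) * conj (a z - b z)).re}

lemma adm_convex (y : AddCircle (1 : ℝ)) : Convex ℝ (adm a b y) := by
  rintro δ₁ ⟨h1, η₁, hη₁, he₁⟩ δ₂ ⟨h2, η₂, hη₂, he₂⟩ p q hp hq hpq
  refine ⟨?_, min η₁ η₂, lt_min hη₁ hη₂, ?_⟩
  · simp only [Complex.add_re, Complex.real_smul, Complex.re_ofReal_mul]
    rcases hp.eq_or_lt with h | h
    · rw [← h, zero_add] at hpq
      rw [← h, hpq]; simpa using h2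
    · nlinarith [mul_pos h h1, mul_nonneg hq h2.le]
  · filter_upwards [he₁, he₂] with z k1 k2
    have e : ((p • δ₁ + q • δ₂) * (a z + b z) * conj (a z - b z)).re
        = p * (δ₁ * (a z + b z) * conj (a z - b z)).re
          + q * (δ₂ * (a z + b z) * conj (a z - b z)).re := by
      rw [← Complex.re_ofReal_mul, ← Complex.re_ofReal_mul, ← Complex.add_re]
      congr 1
      simp only [Complex.real_smul]
      ring
    rw [e]
    have m1 := min_le_left η₁ η₂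
    have m2 := min_le_right η₁ η₂
    rcases hp.eq_or_lt with h | h
    · rw [← h, zero_add] at hpq
      rw [← h, hpq]; linarith
    · nlinarith [mul_lt_mul_of_pos_left (m1.trans_lt k1) h,
        mul_le_mul_of_nonneg_left (m2.trans k2.le) hq]

lemma tends_aux {F : Filter ℝ} {f g : ℝ → ℂ} {p q : ℂ} (δ : ℂ) (hf : Tendsto f F (𝓝 p))
    (hg : Tendsto g F (𝓝 q)) :
    Tendsto (fun s => (δ * (f s + g s) * conj (f s - g s)).re) F
      (𝓝 (δ * (p + q) * conj (p - q)).re) := by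
  have h1 : Tendsto (fun s => δ * (f s + g s)) F (𝓝 (δ * (p + q))) :=
    tendsto_const_nhds.mul (hf.add hg)
  have h2 : Tendsto (fun s => conj (f s - g s)) F (𝓝 (conj (p - q))) :=
    (Complex.continuous_conj.tendsto _).comp (hf.sub hg)
  exact (Complex.continuous_re.tendsto _).comp (h1.mul h2)

lemma adm_local (ha : PC a) (hb : PC b) (h3 : Cond3 a b) (y : AddCircle (1 : ℝ)) :
    ∃ c : ℂ, ∀ᶠ y' in 𝓝 y, c ∈ adm a b y' := by
  obtain ⟨s₀, rfl⟩ := QuotientAddGroup.mk_surjective y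
  obtain ⟨⟨am, ham⟩, ap, hap⟩ := ha s₀
  obtain ⟨⟨bm, hbm⟩, bp, hbp⟩ := hb s₀
  obtain ⟨δ, h0, h1, h2⟩ := sel_point (h3 s₀ ap am bp bm hap ham hbp hbm)
  refine ⟨δ, ?_⟩
  clear ha hb h3
  have t1 := tends_aux δ hap hbp
  have t2 := tends_aux δ ham hbm
  set η := min (δ * (ap + bp) * conj (ap - bp)).re (δ * (am + bm) * conj (am - bm)).re / 2 with hη
  have hmin : 0 < min (δ * (ap + bp) * conj (ap - bp)).re (δ * (am + bm) * conj (am - bm)).re :=
    lt_min h1 h2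
  have hη0 : 0 < η := by positivity
  have e1 := t1.eventually (lt_mem_nhds (show η < _ by
    have := min_le_left (δ * (ap + bp) * conj (ap - bp)).re (δ * (am + bm) * conj (am - bm)).re
    linarith))
  have e2 := t2.eventually (lt_mem_nhds (show η < _ by
    have := min_le_right (δ * (ap + bp) * conj (ap - bp)).re (δ * (am + bm) * conj (am - bm)).re
    linarith))
  have hP : ∀ᶠ z in 𝓝[≠] (↑s₀ : AddCircle (1 : ℝ)),
      η < (δ * (a z + b z) * conj (a z - b z)).re :=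
    ev_circle (P := fun z => η < (δ * (a z + b z) * conj (a z - b z)).re) e2 e1
  have hQ : ∀ᶠ y' in 𝓝[≠] (↑s₀ : AddCircle (1 : ℝ)), δ ∈ adm a b y' := by
    have hP' := eventually_eventually_nhdsWithin.mpr hP
    filter_upwards [hP', self_mem_nhdsWithin] with y' hy' hne
    refine ⟨h0, η, hη0, ?_⟩
    rw [(isOpen_compl_singleton).nhdsWithin_eq hne] at hy'
    exact nhdsWithin_le_nhds hy'
  rw [eventually_nhdsWithin_iff] at hQ
  filter_upwards [hQ] with y' hy'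
  by_cases hy : y' = (↑s₀ : AddCircle (1 : ℝ))
  · rw [hy]; exact ⟨h0, η, hη0, hP⟩
  · exact hy' hy

lemma sel (ha : PC a) (hb : PC b) (h3 : Cond3 a b) :
    ∃ δ : C(AddCircle (1 : ℝ), ℂ), ∀ y, δ y ∈ adm a b y :=
  exists_continuous_forall_mem_convex_of_local_const adm_convex (adm_local ha hb h3)

lemma bdd (ha : PC a) (y : AddCircle (1 : ℝ)) : ∃ C : ℝ, ∀ᶠ z in 𝓝[≠] y, ‖a z‖ ≤ C := by
  obtain ⟨s₀, rfl⟩ := QuotientAddGroup.mk_surjective y
  obtain ⟨⟨am, ham⟩, ap, hap⟩ := ha s₀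
  have e1 := hap.norm.eventually (gt_mem_nhds (show ‖ap‖ < max ‖ap‖ ‖am‖ + 1 by
    have := le_max_left ‖ap‖ ‖am‖; linarith))
  have e2 := ham.norm.eventually (gt_mem_nhds (show ‖am‖ < max ‖ap‖ ‖am‖ + 1 by
    have := le_max_right ‖ap‖ ‖am‖; linarith))
  refine ⟨max ‖ap‖ ‖am‖ + 1, ?_⟩
  exact ev_circle (P := fun z => ‖a z‖ ≤ max ‖ap‖ ‖am‖ + 1) (e2.mono fun _ h => le_of_lt h)
    (e1.mono fun _ h => le_of_lt h)

/-- the good points -/
def Good (a b : AddCircle (1 : ℝ) → ℂ) (δ : C(AddCircle (1 : ℝ), ℂ)) (C : ℕ)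
    (z : AddCircle (1 : ℝ)) : Prop :=
  ‖a z‖ ≤ C ∧ ‖b z‖ ≤ C ∧ 1 / ((C : ℝ) + 1) ≤ (δ z * (a z + b z) * conj (a z - b z)).re

lemma Good.mono {δ : C(AddCircle (1 : ℝ), ℂ)} {C C' : ℕ} (h : C ≤ C') {z : AddCircle (1 : ℝ)}
    (hG : Good a b δ C z) : Good a b δ C' z := by
  have h' : (C : ℝ) ≤ C' := by exact_mod_cast h
  refine ⟨hG.1.trans h', hG.2.1.trans h', le_trans ?_ hG.2.2⟩
  exact one_div_le_one_div_of_le (by positivity) (by linarith)

lemma good_local (ha : PC a) (hb : PC b) {δ : C(AddCircle (1 : ℝ), ℂ)}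
    (hδ : ∀ y, δ y ∈ adm a b y) (y : AddCircle (1 : ℝ)) :
    ∃ C : ℕ, ∀ᶠ z in 𝓝[≠] y, Good a b δ C z := by
  obtain ⟨Ca, hCa⟩ := bdd ha y
  obtain ⟨Cb, hCb⟩ := bdd hb y
  obtain ⟨-, η, hη, he⟩ := hδ y
  set L := (|Ca| + |Cb| + 1) ^ 2 with hL
  have hL0 : 0 < L := by positivity
  have hcont : ∀ᶠ z in 𝓝[≠] y, ‖δ z - δ y‖ < η / (2 * L) := by
    have h1 : Tendsto (fun z => ‖δ z - δ y‖) (𝓝 y) (𝓝 0) := by
      have := ((δ.continuous.sub (continuous_const (y := δ y))).norm.tendsto y)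
      simpa using this
    exact nhdsWithin_le_nhds (h1.eventually (gt_mem_nhds (by positivity)))
  obtain ⟨n, hn⟩ := exists_nat_gt (max (max Ca Cb) (2 / η))
  refine ⟨n, ?_⟩
  have n1 : Ca ≤ n := ((le_max_left _ _).trans (le_max_left _ _)).trans hn.le
  have n2 : Cb ≤ n := ((le_max_right _ _).trans (le_max_left _ _)).trans hn.le
  have n3 : 2 / η ≤ n := (le_max_right _ _).trans hn.le
  filter_upwards [hCa, hCb, he, hcont] with z z1 z2 z3 z4
  refine ⟨z1.trans n1, z2.trans n2, ?_⟩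
  have e : (δ z * (a z + b z) * conj (a z - b z)).re
      = (δ y * (a z + b z) * conj (a z - b z)).re
        + ((δ z - δ y) * ((a z + b z) * conj (a z - b z))).re := by
    rw [← Complex.add_re]; congr 1; ring
  have hb1 : ‖(δ z - δ y) * ((a z + b z) * conj (a z - b z))‖ ≤ η / (2 * L) * L := by
    rw [norm_mul, norm_mul, RCLike.norm_conj]
    refine mul_le_mul z4.le ?_ (by positivity) (by positivity)
    have k1 : ‖a z + b z‖ ≤ |Ca| + |Cb| + 1 := by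
      have := norm_add_le (a z) (b z)
      linarith [le_abs_self Ca, le_abs_self Cb]
    have k2 : ‖a z - b z‖ ≤ |Ca| + |Cb| + 1 := by
      have := norm_sub_le (a z) (b z)
      linarith [le_abs_self Ca, le_abs_self Cb]
    rw [hL, sq]
    exact mul_le_mul k1 k2 (norm_nonneg _) (by positivity)
  have hb2 : η / (2 * L) * L = η / 2 := by field_simp
  have hb3 := (abs_le.mp ((Complex.abs_re_le_norm _).trans (hb1.trans hb2.le))).1
  rw [e]
  have n4 : 1 / ((n : ℝ) + 1) ≤ η / 2 := by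
    rw [div_le_div_iff₀ (by positivity) two_pos]
    rw [div_le_iff₀ hη] at n3
    nlinarith
  linarith

lemma good_uniform (ha : PC a) (hb : PC b) {δ : C(AddCircle (1 : ℝ), ℂ)}
    (hδ : ∀ y, δ y ∈ adm a b y) : ∃ C : ℕ, {z | ¬ Good a b δ C z}.Finite := by
  choose C hC using good_local ha hb hδ
  have hC' : ∀ y, {z | z ≠ y → Good a b δ (C y) z} ∈ 𝓝 y := fun y => by
    have := eventually_nhdsWithin_iff.mp (hC y)
    exact this
  obtain ⟨t, ht⟩ := CompactSpace.elim_nhds_subcover _ hC'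
  refine ⟨t.sup C, (t.finite_toSet).subset ?_⟩
  intro z hz
  have hz' : z ∈ (⊤ : Set (AddCircle (1 : ℝ))) := trivial
  rw [← ht] at hz'
  obtain ⟨y, hy, hzy⟩ := Set.mem_iUnion₂.mp hz'
  by_contra hzt
  apply hz
  have hne : z ≠ y := fun h => hzt (by rw [h]; exact hy)
  exact (hzy hne).mono (Finset.le_sup hy)

end Pool.Agent.TH337.SE
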