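import Pool.Agent.TH337.SE.Alg
import Pool.Agent.TH337.SE.Sel

/-!
The multiplier `Θ`.
-/

open Filter Topology ComplexConjugate

namespace Pool.Agent.TH337.SE

open Classical in
/-- the multiplier -/
noncomputable def Th (a b : AddCircle (1 : ℝ) → ℂ) (δ : C(AddCircle (1 : ℝ), ℂ))
    (z : AddCircle (1 : ℝ)) : ℂ :=
  if 0 < (δ z * (a z + b z) * conj (a z - b z)).re then Psi (δ z) (a z + b z) (a z - b z) else 1

lemma m_pos {δ c d : ℂ} (hδ : 0 < δ.re) (hρ : 0 < (δ * c * conj d).re) :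
    0 < ‖δ * c + conj δ * d‖ ^ 2 := by
  have h1 := m_sub δ c d
  have h2 := mul_pos hδ hρ
  nlinarith [mul_nonneg (sq_nonneg ‖δ‖) (sq_nonneg ‖c - d‖)]

lemma Psi_ne {δ c d : ℂ} (hδ : 0 < δ.re) (hρ : 0 < (δ * c * conj d).re) : Psi δ c d ≠ 0 := by
  have h1 := m_pos hδ hρ
  have h2 : 0 < ‖δ‖ := hδ.trans_le (Complex.re_le_norm δ)
  unfold Psi
  refine mul_ne_zero ?_ ?_
  · rw [Complex.ofReal_ne_zero]
    positivity
  · intro h
    rw [map_eq_zero] at h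
    rw [h] at h1
    simp at h1

lemma Th_ne {a b : AddCircle (1 : ℝ) → ℂ} {δ : C(AddCircle (1 : ℝ), ℂ)}
    (hδ : ∀ y, 0 < (δ y).re) (z : AddCircle (1 : ℝ)) : Th a b δ z ≠ 0 := by
  unfold Th
  split_ifs with h
  · exact Psi_ne (hδ z) h
  · exact one_ne_zero

lemma tendsto_Psi {F : Filter ℝ} {f g h : ℝ → ℂ} {δ c d : ℂ} (hf : Tendsto f F (𝓝 δ))
    (hg : Tendsto g F (𝓝 c)) (hh : Tendsto h F (𝓝 d)) (hδ : 0 < δ.re)
    (hρ : 0 < (δ * c * conj d).re) :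
    Tendsto (fun s => Psi (f s) (g s) (h s)) F (𝓝 (Psi δ c d)) := by
  have h1 := m_pos hδ hρ
  have cf : Tendsto (fun s => conj (f s)) F (𝓝 (conj δ)) :=
    (Complex.continuous_conj.tendsto _).comp hf
  have tm : Tendsto (fun s => f s * g s + conj (f s) * h s) F (𝓝 (δ * c + conj δ * d)) :=
    (hf.mul hg).add (cf.mul hh)
  have cm : Tendsto (fun s => conj (f s * g s + conj (f s) * h s)) F
      (𝓝 (conj (δ * c + conj δ * d))) := (Complex.continuous_conj.tendsto _).comp tm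
  have td : Tendsto (fun s => ‖f s * g s + conj (f s) * h s‖ ^ 2
      + ‖f s‖ ^ 2 * ‖g s - h s‖ ^ 2) F
      (𝓝 (‖δ * c + conj δ * d‖ ^ 2 + ‖δ‖ ^ 2 * ‖c - d‖ ^ 2)) :=
    (tm.norm.pow 2).add ((hf.norm.pow 2).mul ((hg.sub hh).norm.pow 2))
  have tn : Tendsto (fun s => 2 * ‖f s‖ ^ 2) F (𝓝 (2 * ‖δ‖ ^ 2)) :=
    tendsto_const_nhds.mul (hf.norm.pow 2)
  have tq := tn.div td (by positivity)
  exact ((Complex.continuous_ofReal.tendsto _).comp tq).mul cm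

lemma Th_tendsto {a b : AddCircle (1 : ℝ) → ℂ} {δ : C(AddCircle (1 : ℝ), ℂ)} {x : ℝ}
    (hδ : δ (↑x : AddCircle (1 : ℝ)) ∈ adm a b (↑x : AddCircle (1 : ℝ))) {F : Filter ℝ} [F.NeBot]
    (hF : F ≤ 𝓝[≠] x) {al bl : ℂ}
    (ha : Tendsto (fun s : ℝ => a (↑s : AddCircle (1 : ℝ))) F (𝓝 al))
    (hb : Tendsto (fun s : ℝ => b (↑s : AddCircle (1 : ℝ))) F (𝓝 bl)) :
    ∃ l : ℂ, l ≠ 0 ∧ Tendsto (fun s : ℝ => Th a b δ (↑s : AddCircle (1 : ℝ))) F (𝓝 l) := by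
  obtain ⟨h0, η, hη, he⟩ := hδ
  set δ₀ := δ (↑x : AddCircle (1 : ℝ)) with hδ₀
  have hδt : Tendsto (fun s : ℝ => δ (↑s : AddCircle (1 : ℝ))) F (𝓝 δ₀) := by
    have hc : Continuous (fun s : ℝ => (↑s : AddCircle (1 : ℝ))) := AddCircle.continuous_mk' 1
    exact ((δ.continuous.comp hc).tendsto x).mono_left (hF.trans nhdsWithin_le_nhds)
  have hev := ((tendsto_punct x).mono_left hF).eventually he
  have hlim := tends_aux δ₀ ha hb
  have hρ : 0 < (δ₀ * (al + bl) * conj (al - bl)).re :=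
    hη.trans_le (ge_of_tendsto hlim (hev.mono fun s hs => le_of_lt hs))
  have t1 : Tendsto (fun s : ℝ => (δ (↑s : AddCircle (1 : ℝ))
      * (a (↑s : AddCircle (1 : ℝ)) + b (↑s : AddCircle (1 : ℝ)))
      * conj (a (↑s : AddCircle (1 : ℝ)) - b (↑s : AddCircle (1 : ℝ)))).re) F
      (𝓝 (δ₀ * (al + bl) * conj (al - bl)).re) :=
    (Complex.continuous_re.tendsto _).comp
      ((hδt.mul (ha.add hb)).mul ((Complex.continuous_conj.tendsto _).comp (ha.sub hb)))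
  have t2 := t1.eventually (lt_mem_nhds hρ)
  refine ⟨Psi δ₀ (al + bl) (al - bl), Psi_ne h0 hρ, ?_⟩
  refine (tendsto_Psi hδt (ha.add hb) (ha.sub hb) h0 hρ).congr' ?_
  filter_upwards [t2] with s hs
  unfold Th
  rw [if_pos hs]

lemma bounds {δ c d : ℂ} {r Δ B η : ℝ} (hr : 0 < r) (hB : 0 < B) (hη : 0 < η)
    (h1 : r ≤ δ.re) (h2 : ‖δ‖ ≤ Δ) (hc : ‖c‖ ≤ B) (hd : ‖d‖ ≤ B)
    (h3 : η ≤ (δ * c * conj d).re) :
    3 * r ^ 2 * (r * η) / (2 * Δ * B) ^ 2 ≤ marg (conj δ) (Psi δ c d * c) (Psi δ c d * d) ∧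
    ‖Psi δ c d * c‖ ≤ 2 * Δ ^ 2 / (4 * (r * η)) * (2 * Δ * B) * B ∧
    ‖Psi δ c d * d‖ ≤ 2 * Δ ^ 2 / (4 * (r * η)) * (2 * Δ * B) * B := by
  have hδ : 0 < δ.re := hr.trans_le h1
  have hρ : 0 < (δ * c * conj d).re := hη.trans_le h3
  have hδn : δ.re ≤ ‖δ‖ := Complex.re_le_norm δ
  have hΔ : 0 < Δ := (hδ.trans_le hδn).trans_le h2
  have hm := m_pos hδ hρ
  have hms := m_sub δ c d
  set m := δ * c + conj δ * d with hmdef
  have hmle : ‖m‖ ≤ 2 * Δ * B := by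
    have e1 : ‖m‖ ≤ ‖δ‖ * ‖c‖ + ‖δ‖ * ‖d‖ := by
      rw [hmdef]
      refine (norm_add_le _ _).trans ?_
      rw [norm_mul, norm_mul, RCLike.norm_conj]
    have e2 : ‖δ‖ * ‖c‖ ≤ Δ * B := mul_le_mul h2 hc (norm_nonneg _) hΔ.le
    have e3 : ‖δ‖ * ‖d‖ ≤ Δ * B := mul_le_mul h2 hd (norm_nonneg _) hΔ.le
    linarith
  have hm2le : ‖m‖ ^ 2 ≤ (2 * Δ * B) ^ 2 := pow_le_pow_left₀ (norm_nonneg _) hmle 2
  have hρρ : r * η ≤ δ.re * (δ * c * conj d).re := mul_le_mul h1 h3 hη.le hδ.le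
  have hm2ge : 4 * (r * η) ≤ ‖m‖ ^ 2 := by
    nlinarith [mul_nonneg (sq_nonneg ‖δ‖) (sq_nonneg ‖c - d‖)]
  have hrη : 0 < r * η := mul_pos hr hη
  refine ⟨?_, ?_⟩
  · refine le_trans ?_ (marg_Psi hδ hρ)
    rw [← hmdef]
    have k1 : r ^ 2 ≤ ‖δ‖ ^ 2 := pow_le_pow_left₀ hr.le (h1.trans hδn) 2
    have k2 : 3 * r ^ 2 * (r * η) ≤ 3 * ‖δ‖ ^ 2 * (δ.re * (δ * c * conj d).re) :=
      mul_le_mul (by linarith) hρρ hrη.le (by positivity)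
    exact div_le_div₀ (by positivity) k2 hm hm2le
  · have hPsi : ‖Psi δ c d‖ ≤ 2 * Δ ^ 2 / (4 * (r * η)) * (2 * Δ * B) := by
      unfold Psi
      rw [norm_mul, RCLike.norm_conj, Complex.norm_real, Real.norm_eq_abs, ← hmdef,
        abs_of_nonneg (by positivity)]
      refine mul_le_mul ?_ hmle (norm_nonneg _) (by positivity)
      have k3 : ‖δ‖ ^ 2 ≤ Δ ^ 2 := pow_le_pow_left₀ (norm_nonneg _) h2 2
      refine div_le_div₀ (by positivity) (by linarith) (by positivity) ?_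
      nlinarith [mul_nonneg (sq_nonneg ‖δ‖) (sq_nonneg ‖c - d‖)]
    constructor
    · rw [norm_mul]
      exact mul_le_mul hPsi hc (norm_nonneg _) (by positivity)
    · rw [norm_mul]
      exact mul_le_mul hPsi hd (norm_nonneg _) (by positivity)

end Pool.Agent.TH337.SE
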