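import Pool.Agent.TH337.SE.Comp
import Pool.Agent.TH337.SE.Theta

/-!
Condition (3) implies `Θ`-strong ellipticity.
-/

open MeasureTheory Filter Topology ComplexConjugate
open scoped ENNReal

namespace Pool.Agent.TH337.SE

lemma ae_good {a b : X → ℂ} {δ : C(X, ℂ)} {C : ℕ} (h : {z | ¬ Good a b δ C z}.Finite) :
    ∀ᵐ z ∂hx, Good a b δ C z := by
  have : (𝓝[≠] (0 : X)).NeBot := by
    have h1 := (tendsto_punct 0).neBot
    simpa using h1
  rw [ae_iff]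
  exact h.measure_zero hx

lemma PP_add_QQ (S : H →L[ℂ] H) (f : H) : PP S f + QQ S f = f := by
  simp only [PP, QQ, ContinuousLinearMap.smul_apply, ContinuousLinearMap.add_apply,
    ContinuousLinearMap.sub_apply, ContinuousLinearMap.one_apply]
  rw [← smul_add, add_add_sub_cancel, ← two_smul ℂ, smul_smul]
  norm_num

lemma PP_sub_QQ (S : H →L[ℂ] H) (f : H) : PP S f - QQ S f = S f := by
  simp only [PP, QQ, ContinuousLinearMap.smul_apply, ContinuousLinearMap.add_apply,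
    ContinuousLinearMap.sub_apply, ContinuousLinearMap.one_apply]
  rw [← smul_sub, add_sub_sub_cancel, ← two_smul ℂ, smul_smul]
  norm_num

/-- `T f = u (P f) + v (Q f)` -/
lemma T_coe {a b Θ : X → ℂ} {S T : H →L[ℂ] H}
    (hT : ∀ f : H, (T f : X → ℂ) =ᵐ[hx] fun x => Θ x * (a x * f x + b x * (S f : X → ℂ) x))
    (f : H) :
    (T f : X → ℂ) =ᵐ[hx] fun z =>
      (Θ z * (a z + b z)) * (PP S f : X → ℂ) z + (Θ z * (a z - b z)) * (QQ S f : X → ℂ) z := by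
  have h5 : (f : X → ℂ) =ᵐ[hx] (PP S f : X → ℂ) + (QQ S f : X → ℂ) := by
    have := Lp.coeFn_add (PP S f) (QQ S f)
    rwa [PP_add_QQ] at this
  have h6 : (S f : X → ℂ) =ᵐ[hx] (PP S f : X → ℂ) - (QQ S f : X → ℂ) := by
    have := Lp.coeFn_sub (PP S f) (QQ S f)
    rwa [PP_sub_QQ] at this
  filter_upwards [hT f, h5, h6] with z k1 k5 k6
  rw [k1, k5, k6, Pi.add_apply, Pi.sub_apply]
  ring

/-- the main inequality -/
lemma main_ineq {Θ a b : X → ℂ} {S T : H →L[ℂ] H}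
    (hS : ∀ n : ℤ, S (e n) = (if 0 ≤ n then (1 : ℂ) else -1) • e n)
    (hTT : ∀ f : H, (T f : X → ℂ) =ᵐ[hx] fun x => Θ x * (a x * f x + b x * (S f : X → ℂ) x))
    {κ : C(X, ℂ)} {e0 M : ℝ} (he0 : 0 < e0) (hM : 0 < M) (hκ : ∀ z, 0 < (κ z).re)
    (hgood : ∀ᵐ z ∂hx, e0 ≤ marg (κ z) (Θ z * (a z + b z)) (Θ z * (a z - b z)) ∧
      ‖Θ z * (a z + b z)‖ ≤ M ∧ ‖Θ z * (a z - b z)‖ ≤ M) (f : H) :
    e0 / (8 * M) / 2 * ‖f‖ ^ 2 ≤
      (inner ℂ ((T - Hk S κ) f) f).re := by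
  set c := e0 / (8 * M) with hc
  have hc0 : 0 < c := by positivity
  set x := PP S f with hx'
  set y := QQ S f with hy'
  have hk : inner ℂ (Hk S κ f) f = inner ℂ (Mc κ x) y := by
    rw [Hk_apply, QQ_symm hS]
  have hT := T_coe (S := S) hTT f
  have i1 := L2.integrable_inner (𝕜 := ℂ) (T f) f
  have i2 := L2.integrable_inner (𝕜 := ℂ) (Mc κ x) y
  have i3 := L2.integrable_inner (𝕜 := ℂ) x x
  have i4 := L2.integrable_inner (𝕜 := ℂ) y y
  have hf : (f : X → ℂ) =ᵐ[hx] (x : X → ℂ) + (y : X → ℂ) := by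
    have := Lp.coeFn_add x y
    rwa [hx', hy', PP_add_QQ] at this
  have hpos : 0 ≤ (∫ z, (inner ℂ ((T f : X → ℂ) z) ((f : X → ℂ) z)
      - inner ℂ ((Mc κ x : X → ℂ) z) ((y : X → ℂ) z)
      - (c : ℂ) * inner ℂ ((x : X → ℂ) z) ((x : X → ℂ) z)
      - (c : ℂ) * inner ℂ ((y : X → ℂ) z) ((y : X → ℂ) z)) ∂hx).re := by
    have hI := ((i1.sub i2).sub (i3.const_mul (c : ℂ))).sub (i4.const_mul (c : ℂ))
    have h7 := integral_re hI
    have h8 : 0 ≤ ∫ z, RCLike.re ((inner ℂ ((T f : X → ℂ) z) ((f : X → ℂ) z)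
      - inner ℂ ((Mc κ x : X → ℂ) z) ((y : X → ℂ) z)
      - (c : ℂ) * inner ℂ ((x : X → ℂ) z) ((x : X → ℂ) z)
      - (c : ℂ) * inner ℂ ((y : X → ℂ) z) ((y : X → ℂ) z))) ∂hx := by
      refine integral_nonneg_of_ae ?_
      filter_upwards [hT, hf, Mc_coe κ x, hgood] with z k1 k2 k3 k4
      have k5 := ptwise (x := (x : X → ℂ) z) (y := (y : X → ℂ) z) (hκ z) he0 k4.1 hM k4.2.1 k4.2.2 hc
      simp only [Pi.zero_apply]
      rw [k1, k3, k2, Pi.add_apply]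
      simp only [RCLike.inner_apply, RCLike.re_to_complex, Complex.sub_re, Complex.re_ofReal_mul]
      have n1 : ((x : X → ℂ) z * conj ((x : X → ℂ) z)).re = ‖(x : X → ℂ) z‖ ^ 2 := by
        rw [Complex.mul_conj, Complex.ofReal_re, Complex.normSq_eq_norm_sq]
      have n2 : ((y : X → ℂ) z * conj ((y : X → ℂ) z)).re = ‖(y : X → ℂ) z‖ ^ 2 := by
        rw [Complex.mul_conj, Complex.ofReal_re, Complex.normSq_eq_norm_sq]
      rw [n1, n2]
      rw [mul_comm (conj (_ * _ + _ * _)) (_ + _), mul_comm (conj (_ * _)) _] at k5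
      linarith
    rw [← RCLike.re_to_complex]
    refine le_of_le_of_eq h8 ?_
    exact h7
  have hsplit : (∫ z, (inner ℂ ((T f : X → ℂ) z) ((f : X → ℂ) z)
      - inner ℂ ((Mc κ x : X → ℂ) z) ((y : X → ℂ) z)
      - (c : ℂ) * inner ℂ ((x : X → ℂ) z) ((x : X → ℂ) z)
      - (c : ℂ) * inner ℂ ((y : X → ℂ) z) ((y : X → ℂ) z)) ∂hx)
      = inner ℂ (T f) f - inner ℂ (Mc κ x) y - (c : ℂ) * inner ℂ x x
        - (c : ℂ) * inner ℂ y y := by
    have j1 : Integrable (fun z => inner ℂ ((T f : X → ℂ) z) ((f : X → ℂ) z)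
      - inner ℂ ((Mc κ x : X → ℂ) z) ((y : X → ℂ) z)) hx := i1.sub i2
    have j2 : Integrable (fun z => inner ℂ ((T f : X → ℂ) z) ((f : X → ℂ) z)
      - inner ℂ ((Mc κ x : X → ℂ) z) ((y : X → ℂ) z)
      - (c : ℂ) * inner ℂ ((x : X → ℂ) z) ((x : X → ℂ) z)) hx := j1.sub (i3.const_mul (c : ℂ))
    rw [integral_sub j2 (i4.const_mul (c : ℂ)),
      integral_sub j1 (i3.const_mul (c : ℂ)), integral_sub i1 i2,
      integral_const_mul, integral_const_mul, ← L2.inner_def, ← L2.inner_def, ← L2.inner_def,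
      ← L2.inner_def]
  rw [hsplit] at hpos
  have nx : (inner ℂ x x).re = ‖x‖ ^ 2 := by
    rw [← RCLike.re_to_complex]; exact (norm_sq_eq_re_inner x).symm
  have ny : (inner ℂ y y).re = ‖y‖ ^ 2 := by
    rw [← RCLike.re_to_complex]; exact (norm_sq_eq_re_inner y).symm
  simp only [Complex.sub_re, Complex.re_ofReal_mul, nx, ny] at hpos
  have hnf : ‖f‖ ^ 2 ≤ 2 * (‖x‖ ^ 2 + ‖y‖ ^ 2) := by
    have h9 : ‖f‖ ≤ ‖x‖ + ‖y‖ := by
      rw [← PP_add_QQ S f]; exact norm_add_le _ _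
    nlinarith [norm_nonneg f, norm_nonneg x, norm_nonneg y, sq_nonneg (‖x‖ - ‖y‖)]
  have hfin : (inner ℂ ((T - Hk S κ) f) f).re
      = (inner ℂ (T f) f).re - (inner ℂ (Mc κ x) y).re := by
    rw [← hk, ← Complex.sub_re, ← inner_sub_left]
    rfl
  rw [hfin]
  nlinarith

end Pool.Agent.TH337.SE
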